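import Mathlib

/-!
# Sets whose differences have bounded multiplicities: the order is `n^(2/3)`

For `MP_6a97ae_co`.  With `T i = 0 + 1 + ... + (i-1)`, the set of the numbers
`2 m i + (T i mod m) + 1`, `i < 2 m^2`, is admissible and lies in `{1, ..., 4 m^3}`.
-/

namespace Pool.Agent.Results.MP_6a97ae_co.TwoThirdsOrder

open Finset

/-- `ν(s)`: the number of pairs `a < b` of elements of `A` with `b - a = s`. -/
def nu (A : Finset ℕ) (s : ℕ) : ℕ := ((A ×ˢ A).filter fun x => x.1 < x.2 ∧ x.2 - x.1 = s).card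

/-- `A` is admissible: `ν(s) ≤ 2 s` for every positive integer `s`. -/
def Admissible (A : Finset ℕ) : Prop := ∀ s : ℕ, 1 ≤ s → nu A s ≤ 2 * s

/-- `R(n)`: the largest size of an admissible subset of `{1, ..., n}`. -/
noncomputable def R (n : ℕ) : ℕ :=
  sSup {r : ℕ | ∃ A : Finset ℕ, A ⊆ Icc 1 n ∧ Admissible A ∧ A.card = r}

/-- the triangular numbers, by recursion -/
def T : ℕ → ℕ
  | 0 => 0
  | i + 1 => T i + i

lemma T_add (i j : ℕ) : T (i + j) = T i + T j + i * j := by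
  induction j with
  | zero => simp [T]
  | succ j ih => rw [← add_assoc, T, ih, T]; ring

/-- the elements -/
def a (m i : ℕ) : ℕ := 2 * m * i + T i % m + 1

lemma a_lt {m : ℕ} (hm : 0 < m) {i k : ℕ} (h : i < k) : a m i + m < a m k := by
  unfold a
  have h1 : T i % m < m := Nat.mod_lt _ hm
  have h2 : 2 * m * (i + 1) ≤ 2 * m * k := Nat.mul_le_mul_left _ h
  have h3 : 2 * m * (i + 1) = 2 * m * i + 2 * m := by ring
  omega

lemma a_inj {m : ℕ} (hm : 0 < m) : Function.Injective (a m) := by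
  intro i k h
  rcases lt_trichotomy i k with h1 | h1 | h1
  · have := a_lt hm h1; omega
  · exact h1
  · have := a_lt hm h1; omega

lemma bddAbove (n : ℕ) :
    BddAbove {r : ℕ | ∃ A : Finset ℕ, A ⊆ Icc 1 n ∧ Admissible A ∧ A.card = r} := by
  refine ⟨n, ?_⟩
  rintro r ⟨A, hA, -, rfl⟩
  simpa using card_le_card hA

lemma le_R {n : ℕ} {A : Finset ℕ} (h : A ⊆ Icc 1 n) (hA : Admissible A) : A.card ≤ R n :=
  le_csSup (bddAbove n) ⟨A, h, hA, rfl⟩

/-- Solutions of `a (i + j) = a i + s` for fixed `s` with the same `j`. -/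
lemma same_j {m : ℕ} (hm : 0 < m) {i k j l s : ℕ} (h1 : a m (i + j) = a m i + s)
    (h2 : a m (k + l) = a m k + s) : j = l := by
  unfold a at h1 h2
  have e1 : 2 * m * (i + j) = 2 * m * i + 2 * m * j := by ring
  have e2 : 2 * m * (k + l) = 2 * m * k + 2 * m * l := by ring
  have b1 : T i % m < m := Nat.mod_lt _ hm
  have b2 : T (i + j) % m < m := Nat.mod_lt _ hm
  have b3 : T k % m < m := Nat.mod_lt _ hm
  have b4 : T (k + l) % m < m := Nat.mod_lt _ hm
  rw [e1] at h1
  rw [e2] at h2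
  by_contra hne
  rcases lt_or_gt_of_ne hne with h | h
  · have : 2 * m * (j + 1) ≤ 2 * m * l := Nat.mul_le_mul_left _ h
    have e3 : 2 * m * (j + 1) = 2 * m * j + 2 * m := by ring
    omega
  · have : 2 * m * (l + 1) ≤ 2 * m * j := Nat.mul_le_mul_left _ h
    have e3 : 2 * m * (l + 1) = 2 * m * l + 2 * m := by ring
    omega

/-- Two solutions with the same `j` agree modulo `m / gcd(m, j)`. -/
lemma dvd_of {m : ℕ} (hm : 0 < m) {i k j s : ℕ} (h1 : a m (i + j) = a m i + s)
    (h2 : a m (k + j) = a m k + s) : i ≡ k [MOD m / Nat.gcd m j] := by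
  unfold a at h1 h2
  have e1 : 2 * m * (i + j) = 2 * m * i + 2 * m * j := by ring
  have e2 : 2 * m * (k + j) = 2 * m * k + 2 * m * j := by ring
  rw [e1] at h1
  rw [e2] at h2
  have h3 : T (i + j) % m + T k % m = T (k + j) % m + T i % m := by omega
  have h4 : T (i + j) + T k ≡ T (k + j) + T i [MOD m] := by
    have u1 : T (i + j) + T k ≡ T (i + j) % m + T k % m [MOD m] :=
      (Nat.ModEq.add (Nat.mod_modEq _ _) (Nat.mod_modEq _ _)).symm
    have u2 : T (k + j) + T i ≡ T (k + j) % m + T i % m [MOD m] :=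
      (Nat.ModEq.add (Nat.mod_modEq _ _) (Nat.mod_modEq _ _)).symm
    rw [h3] at u1
    exact u1.trans u2.symm
  rw [T_add, T_add] at h4
  have h5 : i * j ≡ k * j [MOD m] := by
    have e3 : T i + T j + i * j + T k = (T i + T j + T k) + i * j := by ring
    have e4 : T k + T j + k * j + T i = (T i + T j + T k) + k * j := by ring
    rw [e3, e4] at h4
    exact Nat.ModEq.add_left_cancel' _ h4
  exact Nat.ModEq.cancel_right_div_gcd hm h5

theorem admissible {m : ℕ} (hm : 0 < m) : Admissible ((range (2 * m ^ 2)).image (a m)) := by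
  intro s hs
  unfold nu
  set P := (((range (2 * m ^ 2)).image (a m) ×ˢ (range (2 * m ^ 2)).image (a m)).filter
    fun x => x.1 < x.2 ∧ x.2 - x.1 = s) with hP
  rcases P.eq_empty_or_nonempty with he | ⟨⟨x0, y0⟩, h0⟩
  · rw [he]; simp
  -- every element comes from `(i, i + j)` with the same `j`
  have key : ∀ x ∈ P, ∃ i j, i < 2 * m ^ 2 ∧ 0 < j ∧ x.1 = a m i ∧ x.2 = a m (i + j) ∧
      a m (i + j) = a m i + s := by
    rintro ⟨x, y⟩ hx
    rw [hP, mem_filter, mem_product, mem_image, mem_image] at hx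
    obtain ⟨⟨⟨i, hi, hxi⟩, ⟨k, hk, hyk⟩⟩, hlt, hsub⟩ := hx
    simp only at hxi hyk hlt hsub
    have hik : i < k := by
      by_contra hcon
      rcases Nat.lt_or_ge k i with h | h
      · have := a_lt hm h; omega
      · have : i = k := by omega
        subst this; omega
    refine ⟨i, k - i, mem_range.1 hi, by omega, hxi.symm, ?_, ?_⟩
    · rw [show i + (k - i) = k by omega]; exact hyk.symm
    · rw [show i + (k - i) = k by omega, hyk, hxi]; omega
  obtain ⟨i0, j, -, hj, -, -, hs0⟩ := key _ h0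
  have hg : 0 < Nat.gcd m j := Nat.gcd_pos_of_pos_left _ hm
  have hgd : Nat.gcd m j ∣ m := Nat.gcd_dvd_left m j
  set g := Nat.gcd m j with hgdef
  set d := m / g with hd
  have hdg : d * g = m := Nat.div_mul_cancel hgd
  have hdpos : 0 < d := Nat.div_pos (Nat.le_of_dvd hm hgd) hg
  have hgj : g ≤ j := Nat.le_of_dvd hj (Nat.gcd_dvd_right m j)
  -- choose the index
  have key2 : ∀ x ∈ P, ∃ i, i < 2 * m ^ 2 ∧ x.1 = a m i ∧ x.2 = a m i + s ∧
      a m (i + j) = a m i + s := by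
    intro x hx
    obtain ⟨i, l, hi, hl, h1, h2, h3⟩ := key x hx
    have : j = l := same_j hm hs0 h3
    subst this
    exact ⟨i, hi, h1, by rw [h2, h3], h3⟩
  choose! φ hφ using key2
  have hcard : P.card ≤ (range (2 * m * g)).card := by
    refine card_le_card_of_injOn (fun x => φ x / d) ?_ ?_
    · intro x hx
      have h1 := (hφ x hx).1
      simp only [coe_range, Set.mem_Iio]
      rw [Nat.div_lt_iff_lt_mul hdpos]
      calc φ x < 2 * m ^ 2 := h1
        _ = 2 * m * (d * g) := by rw [hdg]; ring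
        _ = 2 * m * g * d := by ring
    · intro x hx y hy hxy
      simp only at hxy
      obtain ⟨-, hx1, hx2, hx3⟩ := hφ x hx
      obtain ⟨-, hy1, hy2, hy3⟩ := hφ y hy
      have hmod : φ x ≡ φ y [MOD d] := dvd_of hm hx3 hy3
      have heq : φ x = φ y := by
        have e1 := Nat.div_add_mod (φ x) d
        have e2 := Nat.div_add_mod (φ y) d
        have e3 : φ x % d = φ y % d := hmod
        rw [← e1, ← e2, hxy, e3]
      refine Prod.ext ?_ ?_
      · rw [hx1, hy1, heq]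
      · rw [hx2, hy2, heq]
  rw [card_range] at hcard
  -- lower bound for s
  have hslow : 2 * m * j ≤ s + m := by
    unfold a at hs0
    have e1 : 2 * m * (i0 + j) = 2 * m * i0 + 2 * m * j := by ring
    have b1 : T i0 % m < m := Nat.mod_lt _ hm
    rw [e1] at hs0
    omega
  have h1 : 2 * m * g ≤ 2 * m * j := Nat.mul_le_mul_left _ hgj
  have h2 : 2 * m * 1 ≤ 2 * m * j := Nat.mul_le_mul_left _ hj
  omega

theorem lower (m : ℕ) : 2 * m ^ 2 ≤ R (4 * m ^ 3) := by
  rcases Nat.eq_zero_or_pos m with rfl | hm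
  · simp
  have hsub : (range (2 * m ^ 2)).image (a m) ⊆ Icc 1 (4 * m ^ 3) := by
    intro x hx
    rw [mem_image] at hx
    obtain ⟨i, hi, rfl⟩ := hx
    rw [mem_range] at hi
    rw [mem_Icc]
    unfold a
    have b1 : T i % m < m := Nat.mod_lt _ hm
    have h1 : 2 * m * (i + 1) ≤ 2 * m * (2 * m ^ 2) := Nat.mul_le_mul_left _ hi
    have e1 : 2 * m * (i + 1) = 2 * m * i + 2 * m := by ring
    have e2 : 2 * m * (2 * m ^ 2) = 4 * m ^ 3 := by ring
    omega
  have := le_R hsub (admissible hm)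
  rwa [card_image_of_injective _ (a_inj hm), card_range] at this

lemma R_mono {n k : ℕ} (h : n ≤ k) : R n ≤ R k := by
  unfold R
  apply csSup_le_csSup (bddAbove k)
  · exact ⟨0, ∅, by simp, by intro s _; simp [nu], by simp⟩
  · rintro r ⟨A, hA, h2, h3⟩
    exact ⟨A, hA.trans (Icc_subset_Icc_right h), h2, h3⟩

/-- Upper bound by blocks of length `L`. -/
theorem upper_block {n L : ℕ} (hL : 0 < L) {A : Finset ℕ} (hA : A ⊆ Icc 1 n)
    (hAd : Admissible A) : A.card ≤ (n / L + 1) + L * (L - 1) := by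
  classical
  have h0 := card_filter_add_card_filter_not (s := A) (fun x => ∀ y ∈ A, y / L = x / L → y ≤ x)
  have h1 : (A.filter (fun x => ∀ y ∈ A, y / L = x / L → y ≤ x)).card ≤ n / L + 1 := by
    rw [← card_range (n / L + 1)]
    refine card_le_card_of_injOn (fun x => x / L) ?_ ?_
    · intro x hx
      have hx' := (mem_filter.1 (mem_coe.1 hx)).1
      have hxn := (mem_Icc.1 (hA hx')).2
      simp only [coe_range, Set.mem_Iio]
      have := Nat.div_le_div_right (c := L) hxn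
      omega
    · intro x hx y hy hxy
      have hx' := mem_filter.1 (mem_coe.1 hx)
      have hy' := mem_filter.1 (mem_coe.1 hy)
      simp only at hxy
      have a1 := hx'.2 y hy'.1 hxy.symm
      have a2 := hy'.2 x hx'.1 hxy
      omega
  have h2 : (A.filter (fun x => ¬ ∀ y ∈ A, y / L = x / L → y ≤ x)).card ≤ L * (L - 1) := by
    have hsub : A.filter (fun x => ¬ ∀ y ∈ A, y / L = x / L → y ≤ x) ⊆
        (range L).biUnion (fun s => if s = 0 then ∅ else
          (((A ×ˢ A).filter fun x => x.1 < x.2 ∧ x.2 - x.1 = s).image Prod.fst)) := by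
      intro x hx
      obtain ⟨hxA, hx2⟩ := mem_filter.1 hx
      push Not at hx2
      obtain ⟨y, hyA, hyx, hlt⟩ := hx2
      have e1 := Nat.div_add_mod x L
      have e2 := Nat.div_add_mod y L
      have m1 := Nat.mod_lt x hL
      have m2 := Nat.mod_lt y hL
      rw [hyx] at e2
      rw [mem_biUnion]
      refine ⟨y - x, mem_range.2 (by omega), ?_⟩
      rw [if_neg (by omega), mem_image]
      exact ⟨(x, y), mem_filter.2 ⟨mem_product.2 ⟨hxA, hyA⟩, hlt, rfl⟩, rfl⟩
    refine (card_le_card hsub).trans (card_biUnion_le.trans ?_)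
    have h3 : ∀ s ∈ range L, (if s = 0 then (∅ : Finset ℕ) else
          (((A ×ˢ A).filter fun x => x.1 < x.2 ∧ x.2 - x.1 = s).image Prod.fst)).card ≤ s * 2 := by
      intro s _
      split_ifs with hs
      · simp
      · have := hAd s (by omega)
        unfold nu at this
        exact card_image_le.trans (by omega)
    refine (sum_le_sum h3).trans ?_
    rw [← sum_mul, sum_range_id_mul_two]
  omega

lemma rpow_le {n x : ℝ} (hn : 0 ≤ n) (hx : 0 ≤ x) (h : n ^ 2 ≤ x ^ 3) :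
    n ^ (2 / 3 : ℝ) ≤ x := by
  have e : n ^ (2 / 3 : ℝ) = (n ^ 2) ^ (1 / 3 : ℝ) := by
    rw [← Real.rpow_natCast n 2, ← Real.rpow_mul hn]; norm_num
  have e2 : (x ^ 3) ^ (1 / 3 : ℝ) = x := by
    rw [← Real.rpow_natCast x 3, ← Real.rpow_mul hx]; norm_num
  calc n ^ (2 / 3 : ℝ) = (n ^ 2) ^ (1 / 3 : ℝ) := e
    _ ≤ (x ^ 3) ^ (1 / 3 : ℝ) := Real.rpow_le_rpow (by positivity) h (by norm_num)
    _ = x := e2

lemma le_rpow {n x : ℝ} (hn : 0 ≤ n) (hx : 0 ≤ x) (h : x ^ 3 ≤ n ^ 2) :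
    x ≤ n ^ (2 / 3 : ℝ) := by
  have e : n ^ (2 / 3 : ℝ) = (n ^ 2) ^ (1 / 3 : ℝ) := by
    rw [← Real.rpow_natCast n 2, ← Real.rpow_mul hn]; norm_num
  have e2 : (x ^ 3) ^ (1 / 3 : ℝ) = x := by
    rw [← Real.rpow_natCast x 3, ← Real.rpow_mul hx]; norm_num
  calc x = (x ^ 3) ^ (1 / 3 : ℝ) := e2.symm
    _ ≤ (n ^ 2) ^ (1 / 3 : ℝ) := Real.rpow_le_rpow (by positivity) h (by norm_num)
    _ = n ^ (2 / 3 : ℝ) := e.symm

theorem lower_real (n : ℕ) : (n : ℝ) ^ (2 / 3 : ℝ) / 6 ≤ R n := by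
  have hex : ∃ k : ℕ, n < 4 * (k + 1) ^ 3 := by
    refine ⟨n, ?_⟩
    have : n + 1 ≤ (n + 1) ^ 3 := Nat.le_self_pow (by norm_num) _
    omega
  classical
  set k := Nat.find hex with hk
  have hk1 : n < 4 * (k + 1) ^ 3 := Nat.find_spec hex
  rcases Nat.eq_zero_or_pos k with h0 | hpos
  · rw [h0] at hk1
    have hn4 : n < 4 := by simpa using hk1
    rcases Nat.eq_zero_or_pos n with hn0 | hn0
    · subst hn0
      have : ((0 : ℕ) : ℝ) ^ (2 / 3 : ℝ) = 0 := by
        rw [Nat.cast_zero, Real.zero_rpow (by norm_num)]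
      rw [this]
      simp
    · have h1 : 1 ≤ R n := by
        have := le_R (n := n) (A := {1}) (by simpa using (show 1 ≤ n from hn0)) (by
          intro s hs
          unfold nu
          have : (({1} : Finset ℕ) ×ˢ ({1} : Finset ℕ)).filter
              (fun x => x.1 < x.2 ∧ x.2 - x.1 = s) = ∅ := by
            ext x
            simp only [mem_filter, mem_product, mem_singleton, notMem_empty, iff_false]
            rintro ⟨⟨u1, u2⟩, u3, -⟩
            omega
          rw [this]; simp)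
        simpa using this
      have h2 : (n : ℝ) ^ (2 / 3 : ℝ) ≤ 6 := by
        apply rpow_le (by positivity) (by norm_num)
        have : (n : ℝ) ≤ 3 := by exact_mod_cast (by omega : n ≤ 3)
        have hn' : (0 : ℝ) ≤ n := by positivity
        nlinarith
      have h3 : (1 : ℝ) ≤ R n := by exact_mod_cast h1
      linarith
  · have hk2 : 4 * k ^ 3 ≤ n := by
      have := Nat.find_min hex (m := k - 1) (by omega)
      rw [show k - 1 + 1 = k by omega] at this
      omega
    have h1 : 2 * k ^ 2 ≤ R n := (lower k).trans (R_mono hk2)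
    have h2 : n ≤ 32 * k ^ 3 := by
      have : (k + 1) ^ 3 ≤ (2 * k) ^ 3 := Nat.pow_le_pow_left (by omega) 3
      have e : (2 * k) ^ 3 = 8 * k ^ 3 := by ring
      omega
    have h3 : (n : ℝ) ^ (2 / 3 : ℝ) ≤ 12 * (k : ℝ) ^ 2 := by
      apply rpow_le (by positivity) (by positivity)
      have h4 : (n : ℝ) ≤ 32 * (k : ℝ) ^ 3 := by exact_mod_cast h2
      have hn' : (0 : ℝ) ≤ n := by positivity
      calc (n : ℝ) ^ 2 ≤ (32 * (k : ℝ) ^ 3) ^ 2 := pow_le_pow_left₀ hn' h4 2
        _ = 1024 * (k : ℝ) ^ 6 := by ring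
        _ ≤ 1728 * (k : ℝ) ^ 6 := by
            have : (0 : ℝ) ≤ (k : ℝ) ^ 6 := by positivity
            linarith
        _ = (12 * (k : ℝ) ^ 2) ^ 3 := by ring
    have h5 : (2 : ℝ) * (k : ℝ) ^ 2 ≤ R n := by exact_mod_cast h1
    linarith

theorem upper_real (n : ℕ) : (R n : ℝ) ≤ 8 * (n : ℝ) ^ (2 / 3 : ℝ) := by
  rcases Nat.eq_zero_or_pos n with hn0 | hn0
  · subst hn0
    have h1 : R 0 = 0 := by
      have : R 0 ≤ 0 := by
        unfold R
        apply csSup_le'
        rintro r ⟨A, hA, -, rfl⟩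
        simpa using card_le_card hA
      omega
    rw [h1]
    have : ((0 : ℕ) : ℝ) ^ (2 / 3 : ℝ) = 0 := by
      rw [Nat.cast_zero, Real.zero_rpow (by norm_num)]
    rw [this]
    simp
  have hex : ∃ L : ℕ, n ≤ L ^ 3 := ⟨n, Nat.le_self_pow (by norm_num) _⟩
  classical
  set L := Nat.find hex with hLdef
  have hL1 : n ≤ L ^ 3 := Nat.find_spec hex
  have hLpos : 0 < L := by
    rcases Nat.eq_zero_or_pos L with h | h
    · rw [h] at hL1; simp at hL1; omega
    · exact h
  have hR : R n ≤ 2 * L ^ 2 := by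
    unfold R
    apply csSup_le'
    rintro r ⟨A, hA, hAd, rfl⟩
    have h1 := upper_block hLpos hA hAd
    have h2 : n / L ≤ L ^ 2 := by
      have : n / L ≤ L ^ 3 / L := Nat.div_le_div_right hL1
      have e : L ^ 3 / L = L ^ 2 := by
        rw [show L ^ 3 = L ^ 2 * L by ring, Nat.mul_div_cancel _ hLpos]
      omega
    have h3 : L * (L - 1) + L = L ^ 2 := by
      obtain ⟨l, hl⟩ : ∃ l, L = l + 1 := ⟨L - 1, by omega⟩
      rw [hl]
      simp only [Nat.add_sub_cancel]; ring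
    omega
  have hL3 : L ^ 3 ≤ 8 * n := by
    rcases Nat.lt_or_ge L 2 with h | h
    · have : L = 1 := by omega
      rw [this]; omega
    · have := Nat.find_min hex (m := L - 1) (by omega)
      have h4 : L ^ 3 ≤ (2 * (L - 1)) ^ 3 := Nat.pow_le_pow_left (by omega) 3
      have e : (2 * (L - 1)) ^ 3 = 8 * (L - 1) ^ 3 := by ring
      omega
  have h5 : 2 * (L : ℝ) ^ 2 / 8 ≤ (n : ℝ) ^ (2 / 3 : ℝ) := by
    apply le_rpow (by positivity) (by positivity)
    have h6 : (L : ℝ) ^ 3 ≤ 8 * n := by exact_mod_cast hL3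
    have h7 : (0 : ℝ) ≤ (L : ℝ) ^ 3 := by positivity
    calc (2 * (L : ℝ) ^ 2 / 8) ^ 3 = ((L : ℝ) ^ 3) ^ 2 / 64 := by ring
      _ ≤ (8 * (n : ℝ)) ^ 2 / 64 := by
          have := pow_le_pow_left₀ h7 h6 2
          linarith
      _ = (n : ℝ) ^ 2 := by ring
  have h8 : (R n : ℝ) ≤ 2 * (L : ℝ) ^ 2 := by exact_mod_cast hR
  linarith

/-- `R(n)` has order of growth `n^(2/3)`; moreover `R(4 m^3) ≥ 2 m^2` for every `m`. -/
theorem result :
    (∀ n : ℕ, (n : ℝ) ^ (2 / 3 : ℝ) / 6 ≤ R n ∧ (R n : ℝ) ≤ 8 * (n : ℝ) ^ (2 / 3 : ℝ)) ∧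
    (∀ m : ℕ, 2 * m ^ 2 ≤ R (4 * m ^ 3)) :=
  ⟨fun n => ⟨lower_real n, upper_real n⟩, lower⟩

end Pool.Agent.Results.MP_6a97ae_co.TwoThirdsOrder
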